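import Mathlib

/-! Independent uniform perturbations: the probability of few hits. -/

set_option autoImplicit false

namespace Pool.Agent.TH212.PP

open MeasureTheory ProbabilityTheory Filter Finset

/-- The uniform probability measure on `{0, 1, …, ⌊n^θ⌋}`. -/
noncomputable def noise (θ : ℝ) (n : ℕ) : Measure ℕ :=
  (PMF.uniformOfFinset (Finset.range (⌊(n : ℝ) ^ θ⌋₊ + 1)) (by simp)).toMeasure

instance (θ : ℝ) (n : ℕ) : IsProbabilityMeasure (noise θ n) := by
  unfold noise
  infer_instance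

/-- the product measure -/
noncomputable def pert (θ : ℝ) : Measure (ℕ → ℕ) := Measure.infinitePi (noise θ)

instance (θ : ℝ) : IsProbabilityMeasure (pert θ) := by
  unfold pert
  infer_instance

lemma one_prob (θ : ℝ) (n : ℕ) (S : Finset ℕ) (hS : S ⊆ Finset.range (⌊(n : ℝ) ^ θ⌋₊ + 1)) :
    (pert θ).real {u : ℕ → ℕ | u n ∈ S} = S.card / ((⌊(n : ℝ) ^ θ⌋₊ : ℝ) + 1) := by
  classical
  have h1 : (pert θ).map (fun u => u n) = noise θ n := Measure.infinitePi_map_eval (noise θ) n
  have h3 : (pert θ) {u : ℕ → ℕ | u n ∈ S} = (noise θ n) (S : Set ℕ) := by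
    rw [← h1, Measure.map_apply (measurable_pi_apply n) (by measurability)]
    rfl
  rw [Measure.real, h3]
  unfold noise
  rw [PMF.toMeasure_uniformOfFinset_apply (ht := by measurability), Finset.card_range]
  have h2 : ∀ inst : DecidablePred (fun x => x ∈ (S : Set ℕ)),
      @Finset.filter _ (fun x => x ∈ (S : Set ℕ)) inst (Finset.range (⌊(n : ℝ) ^ θ⌋₊ + 1)) = S := by
    intro inst
    ext x
    simp only [Finset.mem_filter, Finset.mem_coe]
    exact ⟨fun h => h.2, fun h => ⟨hS h, h⟩⟩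
  rw [h2, ENNReal.toReal_div, ENNReal.toReal_natCast, ENNReal.toReal_natCast]
  push_cast
  rfl

/-- the indicator of a hit -/
noncomputable def hit (J : ℕ → Finset ℕ) (n : ℕ) (u : ℕ → ℕ) : ℝ := if u n ∈ J n then 1 else 0

lemma hit_nonneg (J : ℕ → Finset ℕ) (n : ℕ) (u : ℕ → ℕ) : 0 ≤ hit J n u := by
  unfold hit
  split_ifs <;> norm_num

lemma measurable_hit (J : ℕ → Finset ℕ) (n : ℕ) : Measurable (hit J n) := by
  have : hit J n = (fun x : ℕ => if x ∈ J n then (1 : ℝ) else 0) ∘ (fun u : ℕ → ℕ => u n) := rfl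
  rw [this]
  exact (measurable_of_countable _).comp (measurable_pi_apply n)

lemma indep_hit (θ : ℝ) (J : ℕ → Finset ℕ) : iIndepFun (fun n => hit J n) (pert θ) := by
  have h := iIndepFun_infinitePi (P := noise θ) (X := fun n x => if x ∈ J n then (1 : ℝ) else 0)
    (fun n => measurable_of_countable _)
  exact h

lemma mgf_hit (θ : ℝ) (J : ℕ → Finset ℕ) (n : ℕ) (q : ℝ)
    (hq : q ≤ (pert θ).real {u : ℕ → ℕ | u n ∈ J n}) : mgf (hit J n) (pert θ) (-1) ≤ Real.exp (-(q / 2)) := by
  have hA : MeasurableSet {u : ℕ → ℕ | u n ∈ J n} := by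
    have h1 : MeasurableSet ((fun u : ℕ → ℕ => u n) ⁻¹' ((J n : Finset ℕ) : Set ℕ)) :=
      (measurable_pi_apply n) (by measurability)
    exact h1
  have h1 : ∀ u : ℕ → ℕ, Real.exp (-1 * hit J n u) =
      1 - (1 - Real.exp (-1)) * ({u : ℕ → ℕ | u n ∈ J n}.indicator 1 u) := by
    intro u
    by_cases hu : u n ∈ J n
    · rw [Set.indicator_of_mem (by exact hu)]
      unfold hit
      rw [if_pos hu]
      simp
    · rw [Set.indicator_of_notMem (by exact hu)]
      unfold hit
      rw [if_neg hu]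
      simp
  have h2 : mgf (hit J n) (pert θ) (-1) = 1 - (1 - Real.exp (-1)) * (pert θ).real {u : ℕ → ℕ | u n ∈ J n} := by
    unfold mgf
    rw [integral_congr_ae (Eventually.of_forall h1), integral_sub (integrable_const _)
      (((integrable_indicator_iff hA).2 (integrable_const _).integrableOn).const_mul _), integral_const_mul,
      integral_indicator_one hA]
    simp
  rw [h2]
  have h3 : Real.exp (-1) < 0.3678794412 := Real.exp_neg_one_lt_d9
  have h4 : 0 ≤ (pert θ).real {u : ℕ → ℕ | u n ∈ J n} := measureReal_nonneg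
  have h5 : 1 - (q / 2) ≤ Real.exp (-(q / 2)) := Real.one_sub_le_exp_neg _
  nlinarith

/-- few hits are unlikely -/
lemma few_hits (θ : ℝ) (J : ℕ → Finset ℕ) (P : Finset ℕ) (q t : ℝ)
    (hq : ∀ n ∈ P, q ≤ (pert θ).real {u : ℕ → ℕ | u n ∈ J n}) :
    (pert θ).real {u : ℕ → ℕ | ∑ n ∈ P, hit J n u ≤ t} ≤ Real.exp (t - q * P.card / 2) := by
  have hmeas : Measurable (fun u : ℕ → ℕ => ∑ n ∈ P, hit J n u) := Finset.measurable_sum _ fun n _ => measurable_hit J n
  have hint : Integrable (fun u : ℕ → ℕ => Real.exp (-1 * (∑ n ∈ P, hit J n) u)) (pert θ) := by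
    have e : (fun u : ℕ → ℕ => Real.exp (-1 * (∑ n ∈ P, hit J n) u)) = fun u => Real.exp (-1 * ∑ n ∈ P, hit J n u) := by
      funext u
      rw [Finset.sum_apply]
    rw [e]
    refine (integrable_const (1 : ℝ)).mono' (Real.measurable_exp.comp (hmeas.const_mul _)).aestronglyMeasurable ?_
    refine Eventually.of_forall fun u => ?_
    rw [Real.norm_eq_abs, abs_of_pos (Real.exp_pos _)]
    apply Real.exp_le_one_iff.2
    have : 0 ≤ ∑ n ∈ P, hit J n u := Finset.sum_nonneg fun n _ => hit_nonneg J n u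
    linarith
  have h1 := measure_le_le_exp_mul_mgf (μ := pert θ) (X := ∑ n ∈ P, hit J n) t (by norm_num : (-1 : ℝ) ≤ 0) hint
  have h2 : mgf (∑ n ∈ P, hit J n) (pert θ) (-1) ≤ Real.exp (-(q / 2)) ^ P.card := by
    rw [(indep_hit θ J).mgf_sum (fun n => measurable_hit J n)]
    rw [← Finset.prod_const]
    exact Finset.prod_le_prod (fun n _ => mgf_nonneg) fun n hn => mgf_hit θ J n q (hq n hn)
  have e1 : {u : ℕ → ℕ | ∑ n ∈ P, hit J n u ≤ t} = {u : ℕ → ℕ | (∑ n ∈ P, hit J n) u ≤ t} := by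
    ext u
    simp only [Set.mem_setOf_eq, Finset.sum_apply]
  rw [e1]
  refine h1.trans ?_
  refine (mul_le_mul_of_nonneg_left h2 (Real.exp_pos _).le).trans (le_of_eq ?_)
  rw [← Real.exp_nat_mul, ← Real.exp_add]
  congr 1
  ring

end Pool.Agent.TH212.PP
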