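import Pool.Agent.TH212.PP.A
import Pool.Agent.H295R3.Hoheisel

/-! Perturbed primes in one short block. -/

set_option autoImplicit false

namespace Pool.Agent.TH212.PP

open MeasureTheory ProbabilityTheory Filter Finset

/-- the values of the perturbation which put `p` into `(N, N + m h]` -/
noncomputable def JJ (θ : ℝ) (m N h p : ℕ) : Finset ℕ :=
  (range (⌊(p : ℝ) ^ θ⌋₊ + 1)).filter fun k => N < p + m * k ∧ p + m * k ≤ N + m * h

noncomputable def YY (θ : ℝ) (N : ℕ) : ℕ := ⌊(N : ℝ) ^ θ / 4⌋₊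

noncomputable def PP (θ : ℝ) (N : ℕ) : Finset ℕ := (Ioc (N - YY θ N) (N - YY θ N + YY θ N)).filter Nat.Prime

lemma JJ_card {θ : ℝ} (hθ0 : 0 < θ) (hθ1 : θ ≤ 1) {m N h p : ℕ} (hm : 1 ≤ m) (hN : 1 ≤ N)
    (hY : (YY θ N : ℝ) ≤ (N : ℝ) / 4) (hh : (h : ℝ) ≤ (N : ℝ) ^ θ / 8) (hp : p ∈ PP θ N) :
    (h : ℝ) / (2 * (N : ℝ) ^ θ) ≤ (pert θ).real {u : ℕ → ℕ | u p ∈ JJ θ m N h p} := by
  have hN1 : (1 : ℝ) ≤ N := by exact_mod_cast hN
  have hNt : 1 ≤ (N : ℝ) ^ θ := Real.one_le_rpow hN1 hθ0.le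
  unfold PP at hp
  rw [mem_filter, mem_Ioc] at hp
  have hYN : YY θ N ≤ N := by
    have : (YY θ N : ℝ) ≤ N := by linarith
    exact_mod_cast this
  have hpN : p ≤ N := by omega
  have hpN' : N ≤ p + YY θ N := by omega
  have hYf : (YY θ N : ℝ) ≤ (N : ℝ) ^ θ / 4 := Nat.floor_le (by positivity)
  have hp2 : (N : ℝ) / 2 ≤ p := by
    have h1 : (N : ℝ) ≤ p + YY θ N := by exact_mod_cast hpN'
    linarith
  have hpt : (N : ℝ) ^ θ / 2 ≤ (p : ℝ) ^ θ := by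
    have h1 : ((N : ℝ) / 2) ^ θ ≤ (p : ℝ) ^ θ := Real.rpow_le_rpow (by positivity) hp2 hθ0.le
    have h2 : ((N : ℝ) / 2) ^ θ = (N : ℝ) ^ θ / 2 ^ θ := Real.div_rpow (by positivity) (by norm_num) θ
    have h3 : (2 : ℝ) ^ θ ≤ 2 := by
      calc (2 : ℝ) ^ θ ≤ 2 ^ (1 : ℝ) := Real.rpow_le_rpow_of_exponent_le (by norm_num) hθ1
        _ = 2 := Real.rpow_one 2
    have h4 : (N : ℝ) ^ θ / 2 ≤ (N : ℝ) ^ θ / 2 ^ θ := by
      apply div_le_div_of_nonneg_left (by positivity) (by positivity) h3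
    linarith
  rw [one_prob θ p (JJ θ m N h p) (by unfold JJ; exact filter_subset _ _)]
  have hcard : h ≤ (JJ θ m N h p).card := by
    have h1 : (range h).image (fun i => (N - p) / m + 1 + i) ⊆ JJ θ m N h p := by
      intro k hk
      rw [mem_image] at hk
      obtain ⟨i, hi, rfl⟩ := hk
      rw [mem_range] at hi
      unfold JJ
      rw [mem_filter, mem_range]
      have h2 : m * ((N - p) / m) ≤ N - p := Nat.mul_div_le _ _
      have h3 : N - p < m * ((N - p) / m) + m := by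
        have := Nat.lt_mul_div_succ (N - p) (show 0 < m by omega)
        rw [Nat.mul_add, Nat.mul_one] at this
        exact this
      have h4 : m * ((N - p) / m + 1 + i) = m * ((N - p) / m) + m + m * i := by ring
      have h5 : m * i + m ≤ m * h := by
        have : m * (i + 1) ≤ m * h := Nat.mul_le_mul_left m hi
        rw [Nat.mul_add, Nat.mul_one] at this
        exact this
      refine ⟨?_, ?_, ?_⟩
      · apply Nat.lt_succ_of_le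
        apply Nat.le_floor
        have h6 : (N - p) / m ≤ YY θ N := (Nat.div_le_self _ _).trans (by omega)
        have h7 : (N - p) / m + 1 + i ≤ YY θ N + h := by omega
        have h8 : (((N - p) / m + 1 + i : ℕ) : ℝ) ≤ YY θ N + h := by exact_mod_cast h7
        linarith
      · rw [h4]; omega
      · rw [h4]; omega
    have h2 := card_le_card h1
    rwa [card_image_of_injective _ (fun a b hab => by simpa using hab), card_range] at h2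
  have hfl : (⌊(p : ℝ) ^ θ⌋₊ : ℝ) + 1 ≤ 2 * (N : ℝ) ^ θ := by
    have h1 : (⌊(p : ℝ) ^ θ⌋₊ : ℝ) ≤ (p : ℝ) ^ θ := Nat.floor_le (by positivity)
    have h2 : (p : ℝ) ^ θ ≤ (N : ℝ) ^ θ := Real.rpow_le_rpow (by positivity) (by exact_mod_cast hpN) hθ0.le
    linarith
  exact div_le_div₀ (by positivity) (by exact_mod_cast hcard) (by positivity) hfl

/-- the number of the primes which can be used -/
lemma PP_card {δ η : ℝ} (hδ : 0 < δ) (hδ1 : δ < 1) (hη : 0 < η) {X₀ : ℕ} (hX₀ : 2 ≤ X₀)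
    (H : ∀ X Y : ℕ, X₀ ≤ X → (X : ℝ) ^ (1 - δ) ≤ Y → Y ≤ X →
      η * Y / Real.log X ≤ (((Ioc X (X + Y)).filter Nat.Prime).card : ℝ))
    {θ : ℝ} (hθ : 1 - δ / 2 ≤ θ) (hθ1 : θ ≤ 1) :
    ∃ N₁ : ℕ, 1 ≤ N₁ ∧ ∀ N : ℕ, N₁ ≤ N → (YY θ N : ℝ) ≤ (N : ℝ) / 4 ∧
      η * (N : ℝ) ^ θ / (8 * Real.log N) ≤ ((PP θ N).card : ℝ) := by
  have hθ0 : 0 < θ := by linarith
  have ht1 : Tendsto (fun N : ℕ => (N : ℝ) ^ θ) atTop atTop :=
    (tendsto_rpow_atTop hθ0).comp tendsto_natCast_atTop_atTop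
  have ht2 : Tendsto (fun N : ℕ => (N : ℝ) ^ (δ / 2)) atTop atTop :=
    (tendsto_rpow_atTop (by linarith)).comp tendsto_natCast_atTop_atTop
  obtain ⟨N₁, hN₁⟩ := eventually_atTop.1 ((ht1.eventually_ge_atTop 8).and ((ht2.eventually_ge_atTop 8).and
    (eventually_ge_atTop (2 * X₀ + 2))))
  refine ⟨N₁ + 1, by omega, fun N hN => ?_⟩
  obtain ⟨h1, h2, h3⟩ := hN₁ N (by omega)
  have hN1 : (1 : ℝ) ≤ N := by exact_mod_cast (show 1 ≤ N by omega)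
  have hNt : (N : ℝ) ^ θ ≤ N := by
    calc (N : ℝ) ^ θ ≤ (N : ℝ) ^ (1 : ℝ) := Real.rpow_le_rpow_of_exponent_le hN1 hθ1
      _ = N := Real.rpow_one _
  have hYf : (YY θ N : ℝ) ≤ (N : ℝ) ^ θ / 4 := Nat.floor_le (by positivity)
  have hY1 : (YY θ N : ℝ) ≤ (N : ℝ) / 4 := by linarith
  have hY2 : (N : ℝ) ^ θ / 8 ≤ YY θ N := by
    have : (N : ℝ) ^ θ / 4 < YY θ N + 1 := Nat.lt_floor_add_one _
    linarith
  refine ⟨hY1, ?_⟩
  have hYN : 4 * YY θ N ≤ N := by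
    have : (4 : ℝ) * YY θ N ≤ N := by linarith
    exact_mod_cast this
  have hX : X₀ ≤ N - YY θ N := by omega
  have hXN : ((N - YY θ N : ℕ) : ℝ) ≤ N := by exact_mod_cast Nat.sub_le _ _
  have h4 : ((N - YY θ N : ℕ) : ℝ) ^ (1 - δ) ≤ YY θ N := by
    have e1 : ((N - YY θ N : ℕ) : ℝ) ^ (1 - δ) ≤ (N : ℝ) ^ (1 - δ) := Real.rpow_le_rpow (by positivity) hXN (by linarith)
    have e2 : (N : ℝ) ^ (1 - δ) * (N : ℝ) ^ (δ / 2) ≤ (N : ℝ) ^ θ := by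
      rw [← Real.rpow_add (by linarith)]
      exact Real.rpow_le_rpow_of_exponent_le hN1 (by linarith)
    have e3 : (N : ℝ) ^ (1 - δ) * 8 ≤ (N : ℝ) ^ (1 - δ) * (N : ℝ) ^ (δ / 2) :=
      mul_le_mul_of_nonneg_left h2 (by positivity)
    linarith
  have h5 := H (N - YY θ N) (YY θ N) hX h4 (by omega)
  unfold PP
  refine le_trans ?_ h5
  have hXr : (2 : ℝ) ≤ ((N - YY θ N : ℕ) : ℝ) := by exact_mod_cast hX₀.trans hX
  have hlX : 0 < Real.log ((N - YY θ N : ℕ) : ℝ) := Real.log_pos (by linarith)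
  have hlN : Real.log ((N - YY θ N : ℕ) : ℝ) ≤ Real.log N := Real.log_le_log (by linarith) hXN
  have hlN0 : 0 < Real.log (N : ℝ) := by linarith
  have e4 : η * (N : ℝ) ^ θ / (8 * Real.log N) = η * ((N : ℝ) ^ θ / 8) / Real.log N := by
    field_simp
  rw [e4]
  exact div_le_div₀ (by positivity) (mul_le_mul_of_nonneg_left hY2 hη.le) hlX hlN

/-- few hits in one block are unlikely -/
lemma block_prob {δ η : ℝ} (hδ : 0 < δ) (hδ1 : δ < 1) (hη : 0 < η) {X₀ : ℕ} (hX₀ : 2 ≤ X₀)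
    (H : ∀ X Y : ℕ, X₀ ≤ X → (X : ℝ) ^ (1 - δ) ≤ Y → Y ≤ X →
      η * Y / Real.log X ≤ (((Ioc X (X + Y)).filter Nat.Prime).card : ℝ))
    {θ : ℝ} (hθ : 1 - δ / 2 ≤ θ) (hθ1 : θ ≤ 1) {m : ℕ} (hm : 1 ≤ m) :
    ∃ N₁ : ℕ, 2 ≤ N₁ ∧ ∀ N : ℕ, N₁ ≤ N → ∀ h : ℕ, (h : ℝ) ≤ (N : ℝ) ^ θ / 8 → ∀ t : ℝ,
      (pert θ).real {u : ℕ → ℕ | ∑ p ∈ PP θ N, hit (JJ θ m N h) p u ≤ t} ≤
        Real.exp (t - η * h / (32 * Real.log N)) := by
  have hθ0 : 0 < θ := by linarith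
  obtain ⟨N₁, h1N, hN₁⟩ := PP_card hδ hδ1 hη hX₀ H hθ hθ1
  refine ⟨N₁ + 2, by omega, fun N hN h hh t => ?_⟩
  obtain ⟨h1, h2⟩ := hN₁ N (by omega)
  have hN2 : (2 : ℝ) ≤ N := by exact_mod_cast (show 2 ≤ N by omega)
  have hl : 0 < Real.log (N : ℝ) := Real.log_pos (by linarith)
  refine (few_hits θ (JJ θ m N h) (PP θ N) ((h : ℝ) / (2 * (N : ℝ) ^ θ)) t
    fun p hp => JJ_card hθ0 hθ1 hm (by omega) h1 hh hp).trans ?_
  apply Real.exp_le_exp.2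
  have hNt : 0 < (N : ℝ) ^ θ := by positivity
  have h3 : (h : ℝ) / (2 * (N : ℝ) ^ θ) * (η * (N : ℝ) ^ θ / (8 * Real.log N)) ≤
      (h : ℝ) / (2 * (N : ℝ) ^ θ) * (PP θ N).card := mul_le_mul_of_nonneg_left h2 (by positivity)
  have e1 : (h : ℝ) / (2 * (N : ℝ) ^ θ) * (η * (N : ℝ) ^ θ / (8 * Real.log N)) = 2 * (η * h / (32 * Real.log N)) := by
    field_simp
    ring
  rw [e1] at h3
  linarith

end Pool.Agent.TH212.PP
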