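import Pool.Agent.TH212.PP.B

/-! Perturbed primes: almost surely all blocks are hit often. -/

set_option autoImplicit false

namespace Pool.Agent.TH212.PP

open MeasureTheory ProbabilityTheory Filter Finset

/-- almost surely all late blocks contain more than `log N` perturbed primes -/
theorem as_blocks {δ η : ℝ} (hδ : 0 < δ) (hδ1 : δ < 1) (hη : 0 < η) {X₀ : ℕ} (hX₀ : 2 ≤ X₀)
    (H : ∀ X Y : ℕ, X₀ ≤ X → (X : ℝ) ^ (1 - δ) ≤ Y → Y ≤ X →
      η * Y / Real.log X ≤ (((Ioc X (X + Y)).filter Nat.Prime).card : ℝ))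
    {θ : ℝ} (hθ : 1 - δ / 2 ≤ θ) (hθ1 : θ ≤ 1) {m : ℕ} (hm : 1 ≤ m) :
    ∀ᵐ u ∂(pert θ), ∀ᶠ N : ℕ in atTop,
      Real.log N < ∑ p ∈ PP θ N, hit (JJ θ m N ⌈96 / η * Real.log N ^ 2⌉₊) p u := by
  have hθ0 : 0 < θ := by linarith
  obtain ⟨N₁, hN₁2, hN₁⟩ := block_prob hδ hδ1 hη hX₀ H hθ hθ1 hm
  have hev : ∀ᶠ N : ℕ in atTop, ((⌈96 / η * Real.log N ^ 2⌉₊ : ℕ) : ℝ) ≤ (N : ℝ) ^ θ / 8 := by
    have h1 : (fun x : ℝ => Real.log x ^ 2) =o[atTop] fun x : ℝ => x ^ θ := by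
      have := isLittleO_log_rpow_rpow_atTop (s := θ) 2 hθ0
      refine this.congr' (Eventually.of_forall fun x => ?_) (Eventually.of_forall fun x => rfl)
      simp only [Real.rpow_ofNat]
    have h2 := (h1.bound (show (0 : ℝ) < η / 1536 by positivity)).and
      ((tendsto_rpow_atTop hθ0).eventually_ge_atTop 16)
    have h3 := tendsto_natCast_atTop_atTop (R := ℝ) |>.eventually h2
    filter_upwards [h3, eventually_ge_atTop 1] with N hN hN1
    obtain ⟨ha, hb⟩ := hN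
    rw [Real.norm_eq_abs, Real.norm_eq_abs, abs_of_nonneg (by positivity), abs_of_nonneg (by positivity)] at ha
    have h4 : ((⌈96 / η * Real.log N ^ 2⌉₊ : ℕ) : ℝ) < 96 / η * Real.log N ^ 2 + 1 := Nat.ceil_lt_add_one (by positivity)
    have h5 : 96 / η * Real.log (N : ℝ) ^ 2 ≤ 96 / η * (η / 1536 * (N : ℝ) ^ θ) := mul_le_mul_of_nonneg_left ha (by positivity)
    have h6 : 96 / η * (η / 1536 * (N : ℝ) ^ θ) = (N : ℝ) ^ θ / 16 := by
      field_simp
      norm_num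
    rw [h6] at h5
    linarith
  obtain ⟨N₂, hN₂⟩ := eventually_atTop.1 hev
  set s : ℕ → Set (ℕ → ℕ) := fun N => if N₁ + N₂ ≤ N then
    {u : ℕ → ℕ | ∑ p ∈ PP θ N, hit (JJ θ m N ⌈96 / η * Real.log N ^ 2⌉₊) p u ≤ Real.log N} else ∅ with hs
  have hb : ∀ N, (pert θ) (s N) ≤ ENNReal.ofReal (1 / (N : ℝ) ^ 2) := by
    intro N
    by_cases hN : N₁ + N₂ ≤ N
    · have e1 : s N = {u : ℕ → ℕ | ∑ p ∈ PP θ N, hit (JJ θ m N ⌈96 / η * Real.log N ^ 2⌉₊) p u ≤ Real.log N} := by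
        rw [hs]; simp only [if_pos hN]
      rw [e1, ← ENNReal.ofReal_toReal (measure_ne_top (pert θ) _)]
      apply ENNReal.ofReal_le_ofReal
      have h1 := hN₁ N (by omega) ⌈96 / η * Real.log N ^ 2⌉₊ (hN₂ N (by omega)) (Real.log N)
      refine h1.trans ?_
      have hN2 : (2 : ℝ) ≤ N := by exact_mod_cast (show 2 ≤ N by omega)
      have hl : 0 < Real.log (N : ℝ) := Real.log_pos (by linarith)
      have h2 : 96 / η * Real.log N ^ 2 ≤ ((⌈96 / η * Real.log N ^ 2⌉₊ : ℕ) : ℝ) := Nat.le_ceil _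
      have h3 : 3 * Real.log N ≤ η * ((⌈96 / η * Real.log N ^ 2⌉₊ : ℕ) : ℝ) / (32 * Real.log N) := by
        rw [le_div_iff₀ (by positivity)]
        calc 3 * Real.log N * (32 * Real.log N) = η * (96 / η * Real.log N ^ 2) := by field_simp; norm_num
          _ ≤ _ := mul_le_mul_of_nonneg_left h2 hη.le
      have h4 : Real.exp (-(2 * Real.log N)) = 1 / (N : ℝ) ^ 2 := by
        rw [Real.exp_neg, show 2 * Real.log (N : ℝ) = Real.log ((N : ℝ) ^ 2) by rw [Real.log_pow]; push_cast; ring,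
          Real.exp_log (by positivity), one_div]
      rw [← h4]
      apply Real.exp_le_exp.2
      linarith
    · have e1 : s N = ∅ := by rw [hs]; simp only [if_neg hN]
      rw [e1]
      simp
  have hsum : ∑' N, (pert θ) (s N) ≠ ⊤ := by
    refine ne_top_of_le_ne_top ?_ (ENNReal.tsum_le_tsum hb)
    exact (Real.summable_one_div_nat_pow.2 (by norm_num : 1 < 2)).tsum_ofReal_ne_top
  have h := measure_setOf_frequently_eq_zero (μ := pert θ) (p := fun N u => u ∈ s N) (by simpa using hsum)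
  have h' : ∀ᵐ u ∂(pert θ), ¬ ∃ᶠ N in atTop, u ∈ s N := by
    rw [ae_iff]
    simp only [not_not]
    exact h
  filter_upwards [h'] with u hu
  rw [not_frequently] at hu
  filter_upwards [hu, eventually_ge_atTop (N₁ + N₂)] with N h1 h2
  have e1 : s N = {u : ℕ → ℕ | ∑ p ∈ PP θ N, hit (JJ θ m N ⌈96 / η * Real.log N ^ 2⌉₊) p u ≤ Real.log N} := by
    rw [hs]; simp only [if_pos h2]
  rw [e1] at h1
  exact not_le.1 h1

/-- the number of primes `p` with `a < p + m u_p ≤ b` -/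
noncomputable def count (m : ℕ) (u : ℕ → ℕ) (a b : ℝ) : ℕ :=
  Set.ncard {p : ℕ | p.Prime ∧ a < ((p + m * u p : ℕ) : ℝ) ∧ ((p + m * u p : ℕ) : ℝ) ≤ b}

lemma finite_count (m : ℕ) (u : ℕ → ℕ) (a b : ℝ) :
    {p : ℕ | p.Prime ∧ a < ((p + m * u p : ℕ) : ℝ) ∧ ((p + m * u p : ℕ) : ℝ) ≤ b}.Finite := by
  refine (Set.finite_Iic ⌊b⌋₊).subset ?_
  rintro p ⟨_, _, h⟩
  rw [Set.mem_Iic]
  apply Nat.le_floor
  have : (p : ℝ) ≤ ((p + m * u p : ℕ) : ℝ) := by exact_mod_cast Nat.le_add_right _ _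
  linarith

lemma block_count {θ : ℝ} {m N h : ℕ} {u : ℕ → ℕ} :
    ∑ p ∈ PP θ N, hit (JJ θ m N h) p u ≤ (count m u N (N + m * h) : ℝ) := by
  classical
  unfold hit
  rw [← Finset.sum_filter, Finset.sum_const, nsmul_eq_mul, mul_one]
  unfold count
  have h1 : (((PP θ N).filter (fun p => u p ∈ JJ θ m N h p) : Finset ℕ) : Set ℕ) ⊆
      {p : ℕ | p.Prime ∧ (N : ℝ) < ((p + m * u p : ℕ) : ℝ) ∧ ((p + m * u p : ℕ) : ℝ) ≤ (N : ℝ) + m * h} := by
    intro p hp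
    rw [mem_coe, mem_filter] at hp
    obtain ⟨hp1, hp2⟩ := hp
    unfold PP at hp1
    rw [mem_filter] at hp1
    unfold JJ at hp2
    rw [mem_filter] at hp2
    refine ⟨hp1.2, ?_, ?_⟩
    · exact_mod_cast hp2.2.1
    · exact_mod_cast hp2.2.2
  have h2 := Set.ncard_le_ncard h1 (finite_count m u _ _)
  rw [Set.ncard_coe_finset] at h2
  exact_mod_cast h2

end Pool.Agent.TH212.PP
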