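import Pool.Agent.TH212.PP.C

/-! Perturbed primes: all intervals longer than a constant times `log² N`. -/

set_option autoImplicit false

namespace Pool.Agent.TH212.PP

open MeasureTheory ProbabilityTheory Filter Finset

lemma count_mono {m : ℕ} {u : ℕ → ℕ} {a b c : ℝ} (h : b ≤ c) : count m u a b ≤ count m u a c := by
  unfold count
  apply Set.ncard_le_ncard _ (finite_count m u a c)
  rintro p ⟨h1, h2, h3⟩
  exact ⟨h1, h2, h3.trans h⟩

lemma count_add {m : ℕ} {u : ℕ → ℕ} {a b c : ℝ} (hab : a ≤ b) (hbc : b ≤ c) :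
    count m u a b + count m u b c ≤ count m u a c := by
  unfold count
  rw [← Set.ncard_union_eq _ (finite_count m u a b) (finite_count m u b c)]
  · apply Set.ncard_le_ncard _ (finite_count m u a c)
    rintro p (⟨h1, h2, h3⟩ | ⟨h1, h2, h3⟩)
    · exact ⟨h1, h2, h3.trans hbc⟩
    · exact ⟨h1, lt_of_le_of_lt hab h2, h3⟩
  · rw [Set.disjoint_left]
    rintro p ⟨h1, h2, h3⟩ ⟨h4, h5, h6⟩
    linarith

lemma count_blocks {m : ℕ} {u : ℕ → ℕ} {N B : ℕ} {t : ℝ} (j : ℕ)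
    (h : ∀ i, i < j → t ≤ count m u ((N + i * B : ℕ) : ℝ) (((N + i * B : ℕ) : ℝ) + B)) :
    j * t ≤ (count m u N (N + (j * B : ℕ) : ℝ) : ℝ) := by
  induction j with
  | zero => simp
  | succ j ih =>
    have h1 := ih fun i hi => h i (by omega)
    have h2 := h j (by omega)
    have h3 := count_add (m := m) (u := u) (a := (N : ℝ)) (b := (N : ℝ) + (j * B : ℕ)) (c := (N : ℝ) + ((j + 1) * B : ℕ))
      (by linarith [Nat.cast_nonneg (α := ℝ) (j * B)]) (by push_cast; linarith [Nat.cast_nonneg (α := ℝ) B])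
    have e1 : (((N + j * B : ℕ) : ℝ) + B) = (N : ℝ) + ((j + 1) * B : ℕ) := by push_cast; ring
    have e2 : ((N + j * B : ℕ) : ℝ) = (N : ℝ) + (j * B : ℕ) := by push_cast; ring
    rw [e1, e2] at h2
    have h4 : (count m u (N : ℝ) ((N : ℝ) + (j * B : ℕ)) : ℝ) + (count m u ((N : ℝ) + (j * B : ℕ)) ((N : ℝ) + ((j + 1) * B : ℕ)) : ℝ) ≤
        (count m u (N : ℝ) ((N : ℝ) + ((j + 1) * B : ℕ)) : ℝ) := by exact_mod_cast h3
    have e3 : ((j + 1 : ℕ) : ℝ) * t = j * t + t := by push_cast; ring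
    rw [e3]
    linarith

/-- the lower bound in all intervals -/
theorem lower {δ η : ℝ} (hδ : 0 < δ) (hδ1 : δ < 1) (hη : 0 < η) {X₀ : ℕ} (hX₀ : 2 ≤ X₀)
    (H : ∀ X Y : ℕ, X₀ ≤ X → (X : ℝ) ^ (1 - δ) ≤ Y → Y ≤ X →
      η * Y / Real.log X ≤ (((Ioc X (X + Y)).filter Nat.Prime).card : ℝ))
    {θ : ℝ} (hθ : 1 - δ / 2 ≤ θ) (hθ1 : θ ≤ 1) {m : ℕ} (hm : 1 ≤ m) :
    ∃ C : ℝ, 0 < C ∧ ∀ᵐ u ∂(pert θ), ∀ᶠ N : ℕ in atTop, ∀ y : ℝ, C * Real.log N ^ 2 ≤ y → y ≤ N →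
      y / (C * Real.log N) ≤ (count m u N (N + y) : ℝ) := by
  have hm0 : (1 : ℝ) ≤ m := by exact_mod_cast hm
  refine ⟨2 * m * (4 * (96 / η) + 1), by positivity, ?_⟩
  filter_upwards [as_blocks hδ hδ1 hη hX₀ H hθ hθ1 hm] with u hu
  obtain ⟨N₃, hN₃⟩ := eventually_atTop.1 hu
  filter_upwards [eventually_ge_atTop (N₃ + 3)] with N hN y hy hyN
  have hN3 : (3 : ℝ) ≤ N := by exact_mod_cast (show 3 ≤ N by omega)
  have hl1 : 1 ≤ Real.log (N : ℝ) := by
    rw [Real.le_log_iff_exp_le (by linarith)]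
    exact (Real.exp_one_lt_d9.le.trans (by norm_num)).trans hN3
  set A : ℝ := 96 / η with hA
  have hA0 : 0 < A := by rw [hA]; positivity
  set h0 : ℕ := ⌈A * Real.log ((2 * N : ℕ) : ℝ) ^ 2⌉₊ with hh0
  have hl2 : Real.log ((2 * N : ℕ) : ℝ) ≤ 2 * Real.log N := by
    push_cast
    rw [Real.log_mul (by norm_num) (by linarith)]
    have : Real.log 2 ≤ Real.log (N : ℝ) := Real.log_le_log (by norm_num) (by linarith)
    linarith
  have hl20 : 0 ≤ Real.log ((2 * N : ℕ) : ℝ) := Real.log_natCast_nonneg _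
  have hh1 : (h0 : ℝ) ≤ (4 * A + 1) * Real.log N ^ 2 := by
    have h1 : (h0 : ℝ) < A * Real.log ((2 * N : ℕ) : ℝ) ^ 2 + 1 := Nat.ceil_lt_add_one (by positivity)
    have h2 : Real.log ((2 * N : ℕ) : ℝ) ^ 2 ≤ (2 * Real.log N) ^ 2 := pow_le_pow_left₀ hl20 hl2 2
    have h3 : A * Real.log ((2 * N : ℕ) : ℝ) ^ 2 ≤ A * (2 * Real.log N) ^ 2 := mul_le_mul_of_nonneg_left h2 hA0.le
    nlinarith
  set B : ℕ := m * h0 with hB
  have hBr : (B : ℝ) ≤ m * ((4 * A + 1) * Real.log N ^ 2) := by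
    rw [hB]
    push_cast
    exact mul_le_mul_of_nonneg_left hh1 (by positivity)
  have hh0pos : 0 < h0 := by
    rw [hh0]
    apply Nat.ceil_pos.2
    have : 0 < Real.log ((2 * N : ℕ) : ℝ) := by
      apply Real.log_pos
      exact_mod_cast (show 1 < 2 * N by omega)
    positivity
  have hBpos : 0 < B := by rw [hB]; exact Nat.mul_pos (by omega) hh0pos
  have hB0 : (0 : ℝ) < B := by exact_mod_cast hBpos
  have hy2B : 2 * (B : ℝ) ≤ y := by
    calc 2 * (B : ℝ) ≤ 2 * (m * ((4 * A + 1) * Real.log N ^ 2)) := by linarith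
      _ = 2 * m * (4 * A + 1) * Real.log N ^ 2 := by ring
      _ ≤ y := hy
  have hy0 : 0 < y := by linarith
  set j : ℕ := ⌊y / B⌋₊ with hj
  have hjB : (j : ℝ) * B ≤ y := by
    have : (j : ℝ) ≤ y / B := Nat.floor_le (by positivity)
    rwa [le_div_iff₀ hB0] at this
  have hj1 : y / (2 * B) ≤ j := by
    have h1 : y / B < j + 1 := Nat.lt_floor_add_one _
    have h2 : 2 ≤ y / B := by rw [le_div_iff₀ hB0]; linarith
    have h3 : y / (2 * B) = y / B / 2 := by field_simp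
    rw [h3]
    linarith
  have hblocks : ∀ i, i < j → Real.log N ≤ count m u ((N + i * B : ℕ) : ℝ) (((N + i * B : ℕ) : ℝ) + B) := by
    intro i hi
    have h1 : (((N + i * B : ℕ) : ℕ) : ℝ) ≤ ((2 * N : ℕ) : ℝ) := by
      push_cast
      have h2 : (i : ℝ) ≤ j := by exact_mod_cast hi.le
      have h3 : (i : ℝ) * B ≤ j * B := mul_le_mul_of_nonneg_right h2 hB0.le
      linarith
    have h2 := hN₃ (N + i * B) (by omega)
    have hNi : (N : ℝ) ≤ ((N + i * B : ℕ) : ℝ) := by exact_mod_cast Nat.le_add_right _ _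
    have h3 : Real.log N ≤ Real.log ((N + i * B : ℕ) : ℝ) := Real.log_le_log (by linarith) hNi
    have h4 : Real.log ((N + i * B : ℕ) : ℝ) ≤ Real.log ((2 * N : ℕ) : ℝ) := Real.log_le_log (by linarith) h1
    have h5 : ⌈A * Real.log ((N + i * B : ℕ) : ℝ) ^ 2⌉₊ ≤ h0 := by
      rw [hh0]
      apply Nat.ceil_le_ceil
      apply mul_le_mul_of_nonneg_left _ hA0.le
      exact pow_le_pow_left₀ (by linarith) h4 2
    have h6 := block_count (θ := θ) (m := m) (N := N + i * B) (h := ⌈A * Real.log ((N + i * B : ℕ) : ℝ) ^ 2⌉₊) (u := u)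
    have h7 : ((N + i * B : ℕ) : ℝ) + m * ((⌈A * Real.log ((N + i * B : ℕ) : ℝ) ^ 2⌉₊ : ℕ) : ℝ) ≤ ((N + i * B : ℕ) : ℝ) + B := by
      have hBe : (B : ℝ) = m * h0 := by rw [hB]; push_cast; ring
      rw [hBe]
      gcongr
    have h8 := count_mono (m := m) (u := u) (a := ((N + i * B : ℕ) : ℝ)) h7
    have h9 : (count m u ((N + i * B : ℕ) : ℝ) (((N + i * B : ℕ) : ℝ) + m * ((⌈A * Real.log ((N + i * B : ℕ) : ℝ) ^ 2⌉₊ : ℕ) : ℝ)) : ℝ) ≤
      (count m u ((N + i * B : ℕ) : ℝ) (((N + i * B : ℕ) : ℝ) + B) : ℝ) := by exact_mod_cast h8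
    linarith
  have h1 := count_blocks j hblocks
  have h2 : (N : ℝ) + ((j * B : ℕ) : ℝ) ≤ (N : ℝ) + y := by
    push_cast
    linarith
  have h3 := count_mono (m := m) (u := u) (a := (N : ℝ)) h2
  have h4 : (count m u (N : ℝ) ((N : ℝ) + ((j * B : ℕ) : ℝ)) : ℝ) ≤ (count m u (N : ℝ) ((N : ℝ) + y) : ℝ) := by exact_mod_cast h3
  refine le_trans ?_ (h1.trans h4)
  calc y / (2 * m * (4 * A + 1) * Real.log N) = y / (2 * (m * ((4 * A + 1) * Real.log N ^ 2))) * Real.log N := by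
        field_simp
    _ ≤ y / (2 * B) * Real.log N := by
        apply mul_le_mul_of_nonneg_right _ (by linarith)
        apply div_le_div_of_nonneg_left hy0.le (by positivity)
        linarith
    _ ≤ j * Real.log N := mul_le_mul_of_nonneg_right hj1 (by linarith)

end Pool.Agent.TH212.PP
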