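import Pool.Agent.TH212.PP.D
import Pool.Agent.Helper923.PPS.BT

/-! Perturbed primes: large gaps. -/

set_option autoImplicit false

namespace Pool.Agent.TH212.PP

open MeasureTheory ProbabilityTheory Filter Finset

lemma indep_coord (θ : ℝ) : iIndepFun (fun (n : ℕ) (u : ℕ → ℕ) => u n) (pert θ) :=
  iIndepFun_infinitePi (P := noise θ) (X := fun _ x => x) (fun _ => measurable_id)

/-- events which depend on disjoint sets of coordinates happen infinitely often -/
lemma inf_often (θ : ℝ) (W : ℕ → Finset ℕ) (hW : Pairwise fun i j => Disjoint (W i) (W j)) (K : ℕ → Set ℕ)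
    (a : ℕ → ℝ) (ha0 : ∀ j, 0 ≤ a j) (ha : ¬ Summable a)
    (hp : ∀ j, a j ≤ (pert θ).real {u : ℕ → ℕ | ∀ n ∈ W j, u n ∈ K n}) :
    ∀ᵐ u ∂(pert θ), ∃ᶠ j in atTop, ∀ n ∈ W j, u n ∈ K n := by
  classical
  set F : ℕ → Set (ℕ → ℕ) := fun j => {u : ℕ → ℕ | ∀ n ∈ W j, u n ∈ K n} with hF
  have hFe : ∀ j, F j = ⋂ n ∈ W j, (fun u : ℕ → ℕ => u n) ⁻¹' K n := by
    intro j
    ext u
    simp [hF]
  have hK : ∀ n, MeasurableSet ((fun u : ℕ → ℕ => u n) ⁻¹' K n) := fun n =>
    (measurable_pi_apply n) (Set.to_countable _).measurableSet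
  have hFm : ∀ j, MeasurableSet (F j) := fun j => by
    rw [hFe]
    exact Finset.measurableSet_biInter _ fun n _ => hK n
  have hprod : ∀ S : Finset ℕ, (pert θ) (⋂ n ∈ S, (fun u : ℕ → ℕ => u n) ⁻¹' K n) =
      ∏ n ∈ S, (pert θ) ((fun u : ℕ → ℕ => u n) ⁻¹' K n) := fun S =>
    (indep_coord θ).measure_inter_preimage_eq_mul S (sets := K) fun n _ => (Set.to_countable _).measurableSet
  have hind : iIndepSet F (pert θ) := by
    rw [iIndepSet_iff_meas_biInter hFm]
    intro S
    have e1 : (⋂ j ∈ S, F j) = ⋂ n ∈ S.biUnion W, (fun u : ℕ → ℕ => u n) ⁻¹' K n := by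
      ext u
      simp only [Set.mem_iInter, mem_biUnion, hF, Set.mem_setOf_eq, Set.mem_preimage]
      constructor
      · rintro h n ⟨j, hj, hn⟩
        exact h j hj n hn
      · intro h j hj n hn
        exact h n ⟨j, hj, hn⟩
    rw [e1, hprod, Finset.prod_biUnion (fun i _ j _ hij => hW hij)]
    apply Finset.prod_congr rfl
    intro j _
    rw [hFe, hprod]
  have hsum : (∑' j, (pert θ) (F j)) = ⊤ := by
    by_contra hne
    apply ha
    have h1 : Summable fun j => ((pert θ) (F j)).toReal := ENNReal.summable_toReal hne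
    exact Summable.of_nonneg_of_le ha0 hp h1
  have h := measure_limsup_eq_one hFm hind hsum
  have hm : MeasurableSet (limsup F atTop) := MeasurableSet.measurableSet_limsup hFm
  have h2 : ∀ᵐ u ∂(pert θ), u ∈ limsup F atTop := by
    rw [ae_iff]
    have := prob_compl_eq_zero_iff (μ := pert θ) hm
    exact this.2 h
  filter_upwards [h2] with u hu
  rw [mem_limsup_iff_frequently_mem] at hu
  exact hu

/-- the probability that one prime is not moved into `(N, N + H]` -/
lemma miss_one {θ : ℝ} {m N H n : ℕ} (hm : 1 ≤ m) {q : ℝ} (hq1 : q ≤ 1 / 2)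
    (hq : ((H : ℝ) + 1) / ((⌊(n : ℝ) ^ θ⌋₊ : ℝ) + 1) ≤ q) :
    Real.exp (-(2 * q)) ≤ (pert θ).real ((fun u : ℕ → ℕ => u n) ⁻¹' {k : ℕ | ¬ (N < n + m * k ∧ n + m * k ≤ N + H)}) := by
  classical
  set J : Finset ℕ := (range (⌊(n : ℝ) ^ θ⌋₊ + 1)).filter fun k => N < n + m * k ∧ n + m * k ≤ N + H with hJ
  have hJc : J.card ≤ H + 1 := by
    have h1 : J.card ≤ (range (H + 1)).card := by
      apply card_le_card_of_injOn (fun k => n + m * k - N) 
      · intro k hk
        rw [mem_coe, hJ, mem_filter] at hk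
        rw [mem_coe, mem_range]
        show n + m * k - N < H + 1
        omega
      · intro k hk l hl hkl
        rw [mem_coe, hJ, mem_filter] at hk hl
        simp only at hkl
        have h2 : n + m * k = n + m * l := by omega
        have h3 : m * k = m * l := by omega
        exact Nat.eq_of_mul_eq_mul_left (by omega) h3
    rwa [card_range] at h1
  have h1 := one_prob θ n J (filter_subset _ _)
  have h2 : (pert θ).real {u : ℕ → ℕ | u n ∈ J} ≤ q := by
    rw [h1]
    refine le_trans ?_ hq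
    apply div_le_div_of_nonneg_right _ (by positivity)
    exact_mod_cast hJc
  have hJm : MeasurableSet {u : ℕ → ℕ | u n ∈ J} := by
    have h1 : MeasurableSet ((fun u : ℕ → ℕ => u n) ⁻¹' ((J : Finset ℕ) : Set ℕ)) :=
      (measurable_pi_apply n) (by measurability)
    exact h1
  -- almost surely u n ≤ ⌊n^θ⌋
  have h3 : (pert θ).real {u : ℕ → ℕ | u n ∈ range (⌊(n : ℝ) ^ θ⌋₊ + 1)} = 1 := by
    rw [one_prob θ n _ (Finset.Subset.refl _), card_range]
    push_cast
    exact div_self (by positivity)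
  have h4 : (pert θ).real {u : ℕ → ℕ | u n ∈ range (⌊(n : ℝ) ^ θ⌋₊ + 1)} ≤
      (pert θ).real {u : ℕ → ℕ | u n ∈ J} +
      (pert θ).real ((fun u : ℕ → ℕ => u n) ⁻¹' {k : ℕ | ¬ (N < n + m * k ∧ n + m * k ≤ N + H)}) := by
    refine (measureReal_mono ?_).trans (measureReal_union_le _ _)
    intro u hu
    by_cases h : N < n + m * u n ∧ n + m * u n ≤ N + H
    · left
      show u n ∈ J
      rw [hJ, mem_filter]
      exact ⟨hu, h⟩
    · right
      exact h
  rw [h3] at h4
  have h5 : Real.exp (-(2 * q)) ≤ 1 - q := by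
    have h6 : 0 ≤ q := by
      refine le_trans ?_ hq
      positivity
    have h7 : 1 + q + q ^ 2 ≤ Real.exp (2 * q) := by
      have := Real.quadratic_le_exp_of_nonneg (show 0 ≤ 2 * q by linarith)
      nlinarith
    have h8 : 1 ≤ (1 - q) * (1 + q + q ^ 2) + q ^ 3 := by nlinarith
    rw [Real.exp_neg, inv_le_comm₀ (Real.exp_pos _) (by linarith)]
    have h9 : (1 - q)⁻¹ ≤ 1 + 2 * q := by
      rw [inv_le_comm₀ (by linarith) (by linarith)]
      rw [inv_le_iff_one_le_mul₀ (by linarith)]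
      nlinarith
    have h10 : 1 + 2 * q ≤ Real.exp (2 * q) := by
      have := Real.add_one_le_exp (2 * q)
      linarith
    linarith
  linarith

end Pool.Agent.TH212.PP
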