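import Pool.Agent.TH212.PP.E

/-! Perturbed primes: gaps of order `log²` occur. -/

set_option autoImplicit false

namespace Pool.Agent.TH212.PP

open MeasureTheory ProbabilityTheory Filter Finset

noncomputable def DD (θ : ℝ) (m N : ℕ) : ℕ := ⌈(m : ℝ) * (N : ℝ) ^ θ⌉₊

noncomputable def HH (c : ℝ) (N : ℕ) : ℕ := ⌊c * Real.log N ^ 2⌋₊

noncomputable def WW (θ c : ℝ) (m N : ℕ) : Finset ℕ := (Ioc (N - DD θ m N) (N + HH c N)).filter Nat.Prime

lemma ae_bounded (θ : ℝ) : ∀ᵐ u ∂(pert θ), ∀ n : ℕ, u n ≤ ⌊(n : ℝ) ^ θ⌋₊ := by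
  rw [ae_all_iff]
  intro n
  have h3 : (pert θ).real {u : ℕ → ℕ | u n ∈ range (⌊(n : ℝ) ^ θ⌋₊ + 1)} = 1 := by
    rw [one_prob θ n _ (Finset.Subset.refl _), card_range]
    push_cast
    exact div_self (by positivity)
  have hm : MeasurableSet {u : ℕ → ℕ | u n ∈ range (⌊(n : ℝ) ^ θ⌋₊ + 1)} :=
    (measurable_pi_apply n) (Set.to_countable ((range (⌊(n : ℝ) ^ θ⌋₊ + 1) : Finset ℕ) : Set ℕ)).measurableSet
  have h4 : (pert θ) {u : ℕ → ℕ | u n ∈ range (⌊(n : ℝ) ^ θ⌋₊ + 1)} = 1 := by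
    rw [Measure.real, ENNReal.toReal_eq_one_iff] at h3
    exact h3
  have h5 := (prob_compl_eq_zero_iff (μ := pert θ) hm).2 h4
  have h6 : ∀ᵐ u ∂(pert θ), u ∈ {u : ℕ → ℕ | u n ∈ range (⌊(n : ℝ) ^ θ⌋₊ + 1)} := by
    rw [ae_iff]
    exact h5
  filter_upwards [h6] with u hu
  have : u n ∈ range (⌊(n : ℝ) ^ θ⌋₊ + 1) := hu
  rw [mem_range] at this
  omega

/-- conditions on the size of `N` -/
def Big (θ c : ℝ) (m N : ℕ) : Prop :=
  1 ≤ c * Real.log N ^ 2 ∧ (m : ℝ) * (N : ℝ) ^ θ + 1 ≤ N / 2 ∧ 4 * (c * Real.log N ^ 2 + 1) ≤ (N : ℝ) ^ θ ∧ 2 ≤ N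

lemma log_sq_little (θ : ℝ) (hθ : 0 < θ) (e : ℝ) (he : 0 < e) :
    ∀ᶠ x : ℝ in atTop, Real.log x ^ 2 ≤ e * x ^ θ := by
  have h1 : (fun x : ℝ => Real.log x ^ 2) =o[atTop] fun x : ℝ => x ^ θ := by
    have := isLittleO_log_rpow_rpow_atTop (s := θ) 2 hθ
    refine this.congr' (Eventually.of_forall fun x => ?_) (Eventually.of_forall fun x => rfl)
    simp only [Real.rpow_ofNat]
  filter_upwards [h1.bound he, eventually_ge_atTop 0] with x hx hx0
  rw [Real.norm_eq_abs, Real.norm_eq_abs, abs_of_nonneg (by positivity), abs_of_nonneg (by positivity)] at hx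
  exact hx

lemma eventually_big {θ c : ℝ} (hθ0 : 0 < θ) (hθ1 : θ < 1) (hc : 0 < c) (m : ℕ) (hm : 1 ≤ m) :
    ∀ᶠ N : ℕ in atTop, Big θ c m N := by
  have hm0 : (1 : ℝ) ≤ m := by exact_mod_cast hm
  have h1 : ∀ᶠ x : ℝ in atTop, 1 ≤ c * Real.log x ^ 2 := by
    have : Tendsto (fun x : ℝ => c * Real.log x ^ 2) atTop atTop :=
      ((tendsto_pow_atTop (by norm_num : (2 : ℕ) ≠ 0)).comp Real.tendsto_log_atTop).const_mul_atTop hc
    exact this.eventually_ge_atTop 1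
  have h2 : ∀ᶠ x : ℝ in atTop, (m : ℝ) * x ^ θ + 1 ≤ x / 2 := by
    have h3 := (tendsto_rpow_atTop (show 0 < 1 - θ by linarith)).eventually_ge_atTop (4 * m)
    filter_upwards [h3, eventually_ge_atTop 4] with x hx hx1
    have hx0 : 0 < x := by linarith
    have e1 : x ^ θ * x ^ (1 - θ) = x := by rw [← Real.rpow_add hx0]; norm_num
    have h4 : x ^ θ * (4 * m) ≤ x ^ θ * x ^ (1 - θ) := mul_le_mul_of_nonneg_left hx (by positivity)
    rw [e1] at h4
    linarith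
  have h5 : ∀ᶠ x : ℝ in atTop, 4 * (c * Real.log x ^ 2 + 1) ≤ x ^ θ := by
    filter_upwards [log_sq_little θ hθ0 (1 / (8 * c)) (by positivity), (tendsto_rpow_atTop hθ0).eventually_ge_atTop 8] with x hx hx2
    have h6 : c * Real.log x ^ 2 ≤ c * (1 / (8 * c) * x ^ θ) := mul_le_mul_of_nonneg_left hx hc.le
    have e1 : c * (1 / (8 * c) * x ^ θ) = x ^ θ / 8 := by field_simp
    rw [e1] at h6
    linarith
  have h7 := tendsto_natCast_atTop_atTop (R := ℝ) |>.eventually (h1.and (h2.and h5))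
  filter_upwards [h7, eventually_ge_atTop 2] with N hN hN2
  exact ⟨hN.1, hN.2.1, hN.2.2, hN2⟩

/-- the number of the relevant primes and the probability of a gap -/
lemma gap_prob {C θ c : ℝ} (hC : 1 ≤ C)
    (BT : ∀ (a q N : ℕ), 2 ≤ N → (q = 1 ∨ q.Prime) →
      (((Finset.range N).filter (fun k => (a + k * q).Prime)).card : ℝ) ≤ C * N / Real.log N)
    (hθ0 : 0 < θ) (hθ1 : θ < 1) (hc : 0 < c) {m N : ℕ} (hm : 1 ≤ m) (hB : Big θ c m N) (K : ℕ → Set ℕ)
    (hK : ∀ n ∈ WW θ c m N, {k : ℕ | ¬ (N < n + m * k ∧ n + m * k ≤ N + HH c N)} ⊆ K n) :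
    Real.exp (-(24 * C * m * c / θ * Real.log N)) ≤ (pert θ).real {u : ℕ → ℕ | ∀ n ∈ WW θ c m N, u n ∈ K n} := by
  classical
  obtain ⟨h1, h2, h3, h4⟩ := hB
  have hm0 : (1 : ℝ) ≤ m := by exact_mod_cast hm
  have hN2 : (2 : ℝ) ≤ N := by exact_mod_cast h4
  have hNt : 0 < (N : ℝ) ^ θ := by positivity
  have hl : 0 < Real.log (N : ℝ) := Real.log_pos (by linarith)
  have hH : (HH c N : ℝ) ≤ c * Real.log N ^ 2 := Nat.floor_le (by positivity)
  have hD1 : (m : ℝ) * (N : ℝ) ^ θ ≤ DD θ m N := Nat.le_ceil _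
  have hD2 : (DD θ m N : ℝ) < (m : ℝ) * (N : ℝ) ^ θ + 1 := Nat.ceil_lt_add_one (by positivity)
  have hDN : (DD θ m N : ℝ) ≤ N / 2 := by linarith
  have hDNn : DD θ m N ≤ N := by
    have : (DD θ m N : ℝ) ≤ N := by linarith
    exact_mod_cast this
  set q : ℝ := 2 * ((HH c N : ℝ) + 1) / (N : ℝ) ^ θ with hq
  have hq12 : q ≤ 1 / 2 := by
    rw [hq, div_le_iff₀ hNt]
    linarith
  have hq0 : 0 ≤ q := by rw [hq]; positivity
  -- product formula
  have hKm : ∀ S : Finset ℕ, (pert θ) (⋂ n ∈ S, (fun u : ℕ → ℕ => u n) ⁻¹' K n) =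
      ∏ n ∈ S, (pert θ) ((fun u : ℕ → ℕ => u n) ⁻¹' K n) := fun S =>
    (indep_coord θ).measure_inter_preimage_eq_mul S (sets := K) fun n _ => (Set.to_countable _).measurableSet
  have e1 : {u : ℕ → ℕ | ∀ n ∈ WW θ c m N, u n ∈ K n} = ⋂ n ∈ WW θ c m N, (fun u : ℕ → ℕ => u n) ⁻¹' K n := by
    ext u
    simp
  have e2 : (pert θ).real {u : ℕ → ℕ | ∀ n ∈ WW θ c m N, u n ∈ K n} =
      ∏ n ∈ WW θ c m N, (pert θ).real ((fun u : ℕ → ℕ => u n) ⁻¹' K n) := by
    rw [e1, Measure.real, hKm, ENNReal.toReal_prod]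
    rfl
  have h5 : ∀ n ∈ WW θ c m N, Real.exp (-(2 * q)) ≤ (pert θ).real ((fun u : ℕ → ℕ => u n) ⁻¹' K n) := by
    intro n hn
    have hn' := hn
    unfold WW at hn'
    rw [mem_filter, mem_Ioc] at hn'
    have hn2 : (N : ℝ) / 2 ≤ n := by
      have h6 : N ≤ n + DD θ m N := by omega
      have h7 : (N : ℝ) ≤ n + DD θ m N := by exact_mod_cast h6
      linarith
    have hnt : (N : ℝ) ^ θ / 2 ≤ (n : ℝ) ^ θ := by
      have h1 : ((N : ℝ) / 2) ^ θ ≤ (n : ℝ) ^ θ := Real.rpow_le_rpow (by positivity) hn2 hθ0.le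
      have h2 : ((N : ℝ) / 2) ^ θ = (N : ℝ) ^ θ / 2 ^ θ := Real.div_rpow (by positivity) (by norm_num) θ
      have h3 : (2 : ℝ) ^ θ ≤ 2 := by
        calc (2 : ℝ) ^ θ ≤ 2 ^ (1 : ℝ) := Real.rpow_le_rpow_of_exponent_le (by norm_num) hθ1.le
          _ = 2 := Real.rpow_one 2
      have h4 : (N : ℝ) ^ θ / 2 ≤ (N : ℝ) ^ θ / 2 ^ θ := by
        apply div_le_div_of_nonneg_left (by positivity) (by positivity) h3
      linarith
    have h8 : ((HH c N : ℝ) + 1) / ((⌊(n : ℝ) ^ θ⌋₊ : ℝ) + 1) ≤ q := by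
      have h9 : (n : ℝ) ^ θ < (⌊(n : ℝ) ^ θ⌋₊ : ℝ) + 1 := Nat.lt_floor_add_one _
      have e3 : q = ((HH c N : ℝ) + 1) / ((N : ℝ) ^ θ / 2) := by rw [hq]; field_simp
      rw [e3]
      apply div_le_div_of_nonneg_left (by positivity) (by positivity)
      linarith
    refine (miss_one (θ := θ) (m := m) (N := N) (H := HH c N) (n := n) hm hq12 h8).trans ?_
    exact measureReal_mono (Set.preimage_mono (hK n hn))
  have h6 : Real.exp (-(2 * q)) ^ (WW θ c m N).card ≤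
      ∏ n ∈ WW θ c m N, (pert θ).real ((fun u : ℕ → ℕ => u n) ⁻¹' K n) := by
    rw [← Finset.prod_const]
    exact Finset.prod_le_prod (fun n _ => (Real.exp_pos _).le) h5
  rw [e2]
  refine le_trans ?_ h6
  rw [← Real.exp_nat_mul]
  apply Real.exp_le_exp.2
  -- the number of primes
  set L : ℕ := DD θ m N + HH c N with hL
  have hN4 : 4 ≤ (N : ℝ) ^ θ := by
    have : 0 ≤ c * Real.log N ^ 2 := by positivity
    linarith
  have hLr : (N : ℝ) ^ θ ≤ L := by
    rw [hL]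
    push_cast
    have : (0 : ℝ) ≤ HH c N := by positivity
    nlinarith
  have hL2 : 2 ≤ L := by
    have : (2 : ℝ) ≤ L := by linarith
    exact_mod_cast this
  have hLu : (L : ℝ) ≤ 3 * m * (N : ℝ) ^ θ := by
    rw [hL]
    push_cast
    nlinarith
  have hcard : ((WW θ c m N).card : ℝ) ≤ C * L / Real.log L := by
    refine le_trans ?_ (BT (N - DD θ m N + 1) 1 L hL2 (Or.inl rfl))
    have : (WW θ c m N).card ≤ ((Finset.range L).filter (fun k => (N - DD θ m N + 1 + k * 1).Prime)).card := by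
      apply card_le_card_of_injOn (fun n => n - (N - DD θ m N + 1))
      · intro n hn
        unfold WW at hn
        rw [mem_coe, mem_filter, mem_Ioc] at hn
        rw [mem_coe, mem_filter, mem_range]
        have e3 : N - DD θ m N + 1 + (n - (N - DD θ m N + 1)) * 1 = n := by omega
        refine ⟨?_, ?_⟩
        · show n - (N - DD θ m N + 1) < L
          omega
        · show (N - DD θ m N + 1 + (n - (N - DD θ m N + 1)) * 1).Prime
          rw [e3]
          exact hn.2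
      · intro n hn l hl hnl
        unfold WW at hn hl
        rw [mem_coe, mem_filter, mem_Ioc] at hn hl
        simp only at hnl
        omega
    exact_mod_cast this
  have hlogL : θ * Real.log N ≤ Real.log L := by
    rw [← Real.log_rpow (by linarith)]
    exact Real.log_le_log hNt hLr
  have hcard2 : ((WW θ c m N).card : ℝ) ≤ C * (3 * m * (N : ℝ) ^ θ) / (θ * Real.log N) := by
    refine hcard.trans ?_
    exact div_le_div₀ (by positivity) (mul_le_mul_of_nonneg_left hLu (by linarith)) (by positivity) hlogL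
  have h7 : ((WW θ c m N).card : ℝ) * (2 * q) ≤ C * (3 * m * (N : ℝ) ^ θ) / (θ * Real.log N) * (2 * q) :=
    mul_le_mul_of_nonneg_right hcard2 (by linarith)
  have e4 : C * (3 * m * (N : ℝ) ^ θ) / (θ * Real.log N) * (2 * q) = 12 * C * m / (θ * Real.log N) * ((HH c N : ℝ) + 1) := by
    rw [hq]
    field_simp
    ring
  have h8 : 12 * C * m / (θ * Real.log N) * ((HH c N : ℝ) + 1) ≤ 12 * C * m / (θ * Real.log N) * (2 * (c * Real.log N ^ 2)) := by
    apply mul_le_mul_of_nonneg_left _ (by positivity)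
    linarith
  have e5 : 12 * C * m / (θ * Real.log N) * (2 * (c * Real.log N ^ 2)) = 24 * C * m * c / θ * Real.log N := by
    field_simp
    ring
  rw [e4] at h7
  rw [e5] at h8
  linarith

end Pool.Agent.TH212.PP
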