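import Pool.Agent.TH212.PP.F

/-! Perturbed primes: gaps of order `log²` occur infinitely often. -/

set_option autoImplicit false

namespace Pool.Agent.TH212.PP

open MeasureTheory ProbabilityTheory Filter Finset

lemma HH_mono {c : ℝ} (hc : 0 < c) {M N : ℕ} (hM : 1 ≤ M) (h : M ≤ N) : HH c M ≤ HH c N := by
  unfold HH
  apply Nat.floor_le_floor
  apply mul_le_mul_of_nonneg_left _ hc.le
  have h1 : (1 : ℝ) ≤ M := by exact_mod_cast hM
  exact pow_le_pow_left₀ (Real.log_nonneg h1) (Real.log_le_log (by linarith) (by exact_mod_cast h)) 2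

lemma eventually_sep {θ c : ℝ} (hθ0 : 0 < θ) (hc : 0 < c) (m K : ℕ) (hK2 : 2 ≤ K) (hK : (K : ℝ) * θ ≤ K - 2) :
    ∀ᶠ x : ℕ in atTop, x ^ K + HH c (x ^ K) + DD θ m ((x + 1) ^ K) ≤ (x + 1) ^ K := by
  have h1 := tendsto_natCast_atTop_atTop (R := ℝ) |>.eventually
    ((log_sq_little 1 one_pos (1 / (4 * (c * (K : ℝ) ^ 2))) (by positivity)).and (eventually_ge_atTop (2 * (m * 2 ^ (K - 2)) + 8 : ℝ)))
  filter_upwards [h1] with x hx
  obtain ⟨ha, hb⟩ := hx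
  rw [Real.rpow_one] at ha
  have hm0 : (0 : ℝ) ≤ (m : ℝ) * 2 ^ (K - 2) := by positivity
  have hx8 : (8 : ℝ) ≤ x := by linarith
  have hx0 : (0 : ℝ) < x := by linarith
  have hKr : (0 : ℝ) < K := by exact_mod_cast (show 0 < K by omega)
  have hH : (HH c (x ^ K) : ℝ) ≤ x / 4 := by
    have h2 : (HH c (x ^ K) : ℝ) ≤ c * Real.log ((x ^ K : ℕ) : ℝ) ^ 2 := Nat.floor_le (by positivity)
    have e1 : Real.log ((x ^ K : ℕ) : ℝ) = K * Real.log x := by push_cast; rw [Real.log_pow]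
    rw [e1] at h2
    have h3 : c * (K : ℝ) ^ 2 * Real.log x ^ 2 ≤ c * (K : ℝ) ^ 2 * (1 / (4 * (c * (K : ℝ) ^ 2)) * x) :=
      mul_le_mul_of_nonneg_left ha (by positivity)
    have e2 : c * (K : ℝ) ^ 2 * (1 / (4 * (c * (K : ℝ) ^ 2)) * x) = x / 4 := by field_simp
    rw [e2] at h3
    calc (HH c (x ^ K) : ℝ) ≤ c * (K * Real.log x) ^ 2 := h2
      _ = c * (K : ℝ) ^ 2 * Real.log x ^ 2 := by ring
      _ ≤ x / 4 := h3
  have hD : (DD θ m ((x + 1) ^ K) : ℝ) ≤ m * 2 ^ (K - 2) * (x : ℝ) ^ (K - 2) + 1 := by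
    have h2 : (DD θ m ((x + 1) ^ K) : ℝ) < (m : ℝ) * (((x + 1) ^ K : ℕ) : ℝ) ^ θ + 1 := Nat.ceil_lt_add_one (by positivity)
    have hx1 : (1 : ℝ) ≤ (x : ℝ) + 1 := by linarith
    have e1 : (((x + 1) ^ K : ℕ) : ℝ) ^ θ ≤ ((x : ℝ) + 1) ^ (K - 2) := by
      push_cast
      rw [← Real.rpow_natCast, ← Real.rpow_mul (by linarith), ← Real.rpow_natCast ((x : ℝ) + 1) (K - 2)]
      apply Real.rpow_le_rpow_of_exponent_le hx1
      rw [Nat.cast_sub hK2]
      exact_mod_cast hK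
    have e2 : ((x : ℝ) + 1) ^ (K - 2) ≤ 2 ^ (K - 2) * (x : ℝ) ^ (K - 2) := by
      rw [← mul_pow]
      exact pow_le_pow_left₀ (by linarith) (by linarith) _
    have e3 : (m : ℝ) * (((x + 1) ^ K : ℕ) : ℝ) ^ θ ≤ m * (2 ^ (K - 2) * (x : ℝ) ^ (K - 2)) :=
      mul_le_mul_of_nonneg_left (e1.trans e2) (by positivity)
    linarith
  have hpow : (1 : ℝ) ≤ (x : ℝ) ^ (K - 2) := one_le_pow₀ (by linarith)
  have hfin : ((x : ℝ) ^ K + x ^ (K - 1)) ≤ ((x : ℝ) + 1) ^ K := by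
    have e1 : ((x : ℝ) + 1) ^ K = ((x : ℝ) + 1) * ((x : ℝ) + 1) ^ (K - 1) := by
      rw [← pow_succ']
      congr 1
      omega
    have e2 : (x : ℝ) ^ K = x * x ^ (K - 1) := by
      rw [← pow_succ']
      congr 1
      omega
    have h3 : (x : ℝ) ^ (K - 1) ≤ ((x : ℝ) + 1) ^ (K - 1) := pow_le_pow_left₀ hx0.le (by linarith) _
    rw [e1, e2]
    nlinarith
  have e3 : (x : ℝ) ^ (K - 1) = x * x ^ (K - 2) := by
    rw [← pow_succ']
    congr 1
    omega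
  have hreal : ((x ^ K + HH c (x ^ K) + DD θ m ((x + 1) ^ K) : ℕ) : ℝ) ≤ (((x + 1) ^ K : ℕ) : ℝ) := by
    push_cast
    refine le_trans ?_ hfin
    rw [e3]
    have h4 : (m : ℝ) * 2 ^ (K - 2) * (x : ℝ) ^ (K - 2) ≤ (x / 2 - 4) * (x : ℝ) ^ (K - 2) :=
      mul_le_mul_of_nonneg_right (by linarith) (by linarith)
    have h5 : (x : ℝ) / 4 + 1 ≤ (x / 4 + 1) * (x : ℝ) ^ (K - 2) := by
      have := mul_le_mul_of_nonneg_left hpow (show (0 : ℝ) ≤ x / 4 + 1 by linarith)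
      linarith
    nlinarith
  exact_mod_cast hreal

theorem large_gaps {θ : ℝ} (hθ0 : 0 < θ) (hθ1 : θ < 1) {m : ℕ} (hm : 1 ≤ m) :
    ∃ c : ℝ, 0 < c ∧ ∀ᵐ u ∂(pert θ), ∃ᶠ N : ℕ in atTop, count m u N (N + c * Real.log N ^ 2) = 0 := by
  obtain ⟨C, hC, BT⟩ := Pool.Agent.Helper923.PPS.brun_titchmarsh
  have hm0 : (1 : ℝ) ≤ m := by exact_mod_cast hm
  set K : ℕ := ⌈2 / (1 - θ)⌉₊ with hKdef
  have hK1 : 2 / (1 - θ) ≤ K := Nat.le_ceil _
  have h1θ : 0 < 1 - θ := by linarith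
  have hKθ : (K : ℝ) * θ ≤ K - 2 := by
    rw [div_le_iff₀ h1θ] at hK1
    linarith
  have hK2r : (2 : ℝ) ≤ K := by
    have : 0 ≤ (K : ℝ) * θ := by positivity
    linarith
  have hK2 : 2 ≤ K := by exact_mod_cast hK2r
  set c : ℝ := θ / (24 * C * m * K) with hcdef
  have hc : 0 < c := by rw [hcdef]; positivity
  have htK : Tendsto (fun x : ℕ => x ^ K) atTop atTop := tendsto_pow_atTop (by omega)
  obtain ⟨j₀, hj₀⟩ := eventually_atTop.1 ((htK.eventually (eventually_big hθ0 hθ1 hc m hm)).and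
    ((eventually_sep hθ0 hc m K hK2 hKθ).and (eventually_ge_atTop 1)))
  set Nj : ℕ → ℕ := fun j => (j + j₀) ^ K with hNj
  set W : ℕ → Finset ℕ := fun j => WW θ c m (Nj j) with hWdef
  have hj1 : ∀ j, 1 ≤ j + j₀ := fun j => (hj₀ (j + j₀) (by omega)).2.2
  have hsep : ∀ i j, i < j → Nj i + HH c (Nj i) ≤ Nj j - DD θ m (Nj j) := by
    intro i j hij
    have h1 := (hj₀ (j - 1 + j₀) (by omega)).2.1
    have e1 : j - 1 + j₀ + 1 = j + j₀ := by omega
    rw [e1] at h1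
    have h2 : (i + j₀) ^ K ≤ (j - 1 + j₀) ^ K := Nat.pow_le_pow_left (by omega) K
    have h3 : HH c ((i + j₀) ^ K) ≤ HH c ((j - 1 + j₀) ^ K) :=
      HH_mono hc (Nat.one_le_pow _ _ (hj1 i)) h2
    simp only [hNj]
    omega
  have hdisj : ∀ i j, i < j → Disjoint (W i) (W j) := by
    intro i j hij
    rw [Finset.disjoint_left]
    intro n hi hj
    simp only [hWdef, WW, mem_filter, mem_Ioc] at hi hj
    have := hsep i j hij
    omega
  have hdisj' : Pairwise fun i j => Disjoint (W i) (W j) := by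
    intro i j hij
    rcases lt_or_gt_of_ne hij with h | h
    · exact hdisj i j h
    · exact (hdisj j i h).symm
  set Ks : ℕ → Set ℕ := fun n => {k | ∀ j, n ∈ W j → ¬ (Nj j < n + m * k ∧ n + m * k ≤ Nj j + HH c (Nj j))} with hKs
  have hK' : ∀ j, ∀ n ∈ WW θ c m (Nj j), {k : ℕ | ¬ (Nj j < n + m * k ∧ n + m * k ≤ Nj j + HH c (Nj j))} ⊆ Ks n := by
    intro j n hn k hk i hi
    by_cases hij : i = j
    · rw [hij]; exact hk
    · exact absurd hn (fun h => (Finset.disjoint_left.1 (hdisj' hij)) hi h)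
  have hprob : ∀ j, 1 / ((j + j₀ : ℕ) : ℝ) ≤ (pert θ).real {u : ℕ → ℕ | ∀ n ∈ W j, u n ∈ Ks n} := by
    intro j
    have h1 := gap_prob hC BT hθ0 hθ1 hc hm (hj₀ (j + j₀) (by omega)).1 Ks (hK' j)
    refine le_trans (le_of_eq ?_) h1
    have hjr : (0 : ℝ) < ((j + j₀ : ℕ) : ℝ) := by exact_mod_cast hj1 j
    have e1 : Real.log (((j + j₀) ^ K : ℕ) : ℝ) = K * Real.log ((j + j₀ : ℕ) : ℝ) := by
      push_cast
      rw [Real.log_pow]
    have hKr : (0 : ℝ) < K := by linarith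
    have hC0 : (0 : ℝ) < C := by linarith
    have e2 : 24 * C * m * c / θ * (K * Real.log ((j + j₀ : ℕ) : ℝ)) = Real.log ((j + j₀ : ℕ) : ℝ) := by
      rw [hcdef]
      field_simp
    rw [e1, e2, Real.exp_neg, Real.exp_log hjr, one_div]
  have hns : ¬ Summable fun j : ℕ => 1 / ((j + j₀ : ℕ) : ℝ) := by
    intro h
    exact Real.not_summable_one_div_natCast ((summable_nat_add_iff (f := fun n : ℕ => 1 / (n : ℝ)) j₀).1 h)
  have h := inf_often θ W hdisj' Ks (fun j => 1 / ((j + j₀ : ℕ) : ℝ)) (fun j => by positivity) hns hprob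
  refine ⟨c, hc, ?_⟩
  filter_upwards [h, ae_bounded θ] with u hu hub
  have htN : Tendsto Nj atTop atTop := htK.comp (tendsto_add_atTop_nat j₀)
  refine htN.frequently (hu.mono fun j hj => ?_)
  unfold count
  rw [Set.ncard_eq_zero (finite_count m u _ _)]
  rw [Set.eq_empty_iff_forall_notMem]
  rintro p ⟨hp, h1, h2⟩
  have h1' : Nj j < p + m * u p := by exact_mod_cast h1
  have h2' : p + m * u p ≤ Nj j + HH c (Nj j) := by
    have h3 : p + m * u p - Nj j ≤ HH c (Nj j) := by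
      unfold HH
      apply Nat.le_floor
      rw [Nat.cast_sub h1'.le]
      linarith
    omega
  have hpN : Nj j - DD θ m (Nj j) < p := by
    by_contra hcon
    push Not at hcon
    have hp0 := hp.pos
    have h3 : p + DD θ m (Nj j) ≤ Nj j := by omega
    have h4 : m * u p ≤ DD θ m (Nj j) := by
      have h5 : ((m * u p : ℕ) : ℝ) ≤ DD θ m (Nj j) := by
        push_cast
        have h6 : (u p : ℝ) ≤ (p : ℝ) ^ θ := (by exact_mod_cast hub p : (u p : ℝ) ≤ (⌊(p : ℝ) ^ θ⌋₊ : ℝ)).trans (Nat.floor_le (by positivity))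
        have h7 : (p : ℝ) ^ θ ≤ ((Nj j : ℕ) : ℝ) ^ θ := by
          apply Real.rpow_le_rpow (by positivity) _ hθ0.le
          exact_mod_cast (show p ≤ Nj j by omega)
        have h8 : (m : ℝ) * u p ≤ m * ((Nj j : ℕ) : ℝ) ^ θ := mul_le_mul_of_nonneg_left (h6.trans h7) (by positivity)
        exact h8.trans (Nat.le_ceil _)
      exact_mod_cast h5
    omega
  have hpW : p ∈ W j := by
    simp only [hWdef, WW, mem_filter, mem_Ioc]
    exact ⟨⟨hpN, by omega⟩, hp⟩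
  exact hj p hpW j hpW ⟨h1', h2'⟩

end Pool.Agent.TH212.PP
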